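import Mathlib
import Pool.Agent.U892.PD.Stm

set_option autoImplicit false

/-!
# Project PD, package CON1 (helper356)
-/

open Filter Topology Set
open scoped ContDiff

namespace Pool.Agent.U356.PD

open Pool.Agent.U892.PD

noncomputable section

lemma const_of_zero {g : ℝ → ℝ} {ε : ℝ} (h : ∀ a ∈ Metric.ball (0 : ℝ) ε, HasDerivAt g 0 a) :
    ∀ a ∈ Metric.ball (0 : ℝ) ε, g a = g 0 := by
  intro a ha
  have hε : 0 < ε := by
    have := Metric.mem_ball.1 ha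
    exact lt_of_le_of_lt dist_nonneg this
  exact IsOpen.is_const_of_deriv_eq_zero Metric.isOpen_ball (convex_ball 0 ε).isPreconnected
    (fun a ha => (h a ha).differentiableAt.differentiableWithinAt) (fun a ha => (h a ha).deriv) ha
    (Metric.mem_ball_self hε)

lemma slice_a {f : ℝ × ℝ → ℝ} {a b : ℝ} (h : DifferentiableAt ℝ f (a, b)) :
    HasDerivAt (fun a' => f (a', b)) (da f (a, b)) a := by
  have h1 : HasDerivAt (fun a' : ℝ => (a', b)) ((1 : ℝ), (0 : ℝ)) a :=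
    (hasDerivAt_id a).prodMk (hasDerivAt_const a b)
  exact h.hasFDerivAt.comp_hasDerivAt a h1

lemma slice_b {f : ℝ × ℝ → ℝ} {a b : ℝ} (h : DifferentiableAt ℝ f (a, b)) :
    HasDerivAt (fun b' => f (a, b')) (db f (a, b)) b := by
  have h1 : HasDerivAt (fun b' : ℝ => (a, b')) ((0 : ℝ), (1 : ℝ)) b :=
    (hasDerivAt_const b a).prodMk (hasDerivAt_id b)
  exact h.hasFDerivAt.comp_hasDerivAt b h1

lemma mem_sq {ε a b : ℝ} (ha : a ∈ Metric.ball (0 : ℝ) ε) (hb : b ∈ Metric.ball (0 : ℝ) ε) :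
    ((a, b) : ℝ × ℝ) ∈ Metric.ball ((0, 0) : ℝ × ℝ) ε := by
  rw [← ball_prod_same]
  exact ⟨ha, hb⟩

/-- the two functions `S`, `P` of one leaf on the lines `y = a` -/
lemma quad_slice {X Y : ℝ × ℝ → ℝ} {ε : ℝ} (hε : 0 < ε)
    (hX : ∀ w ∈ Metric.ball ((0, 0) : ℝ × ℝ) ε, ContDiffAt ℝ 20 X w)
    (hY : ∀ w ∈ Metric.ball ((0, 0) : ℝ × ℝ) ε, ContDiffAt ℝ 20 Y w)
    (hXb : ∀ w ∈ Metric.ball ((0, 0) : ℝ × ℝ) ε, db X w = X w * da X w)
    (hYb : ∀ w ∈ Metric.ball ((0, 0) : ℝ × ℝ) ε, db Y w = Y w * da Y w)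
    (hS : ∀ w ∈ Metric.ball ((0, 0) : ℝ × ℝ) ε, da (da (fun w => X w + Y w)) w = 0) :
    ∃ α β p₀ p₁ p₂ : ℝ, ∀ a ∈ Metric.ball (0 : ℝ) ε, X (a, 0) + Y (a, 0) = α + β * a ∧
      X (a, 0) * Y (a, 0) = p₀ + p₁ * a + p₂ * a ^ 2 := by
  set S : ℝ × ℝ → ℝ := fun w => X w + Y w with hSdef
  have h0 : (0 : ℝ) ∈ Metric.ball (0 : ℝ) ε := Metric.mem_ball_self hε
  have cS : ∀ w ∈ Metric.ball ((0, 0) : ℝ × ℝ) ε, ContDiffAt ℝ 20 S w := fun w hw =>
    (hX w hw).add (hY w hw)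
  have dX : ∀ w ∈ Metric.ball ((0, 0) : ℝ × ℝ) ε, DifferentiableAt ℝ X w := fun w hw =>
    (hX w hw).differentiableAt (by norm_num)
  have dY : ∀ w ∈ Metric.ball ((0, 0) : ℝ × ℝ) ε, DifferentiableAt ℝ Y w := fun w hw =>
    (hY w hw).differentiableAt (by norm_num)
  have dS : ∀ w ∈ Metric.ball ((0, 0) : ℝ × ℝ) ε, DifferentiableAt ℝ S w := fun w hw =>
    (cS w hw).differentiableAt (by norm_num)
  have dSa : ∀ w ∈ Metric.ball ((0, 0) : ℝ × ℝ) ε, DifferentiableAt ℝ (da S) w := by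
    intro w hw
    have h1 : ContDiffAt ℝ 1 (fderiv ℝ S) w := (cS w hw).fderiv_right (by norm_num)
    exact (h1.differentiableAt (by norm_num)).clm_apply (differentiableAt_const _)
  -- `S` is affine in `a`
  have hSa : ∀ b ∈ Metric.ball (0 : ℝ) ε, ∀ a ∈ Metric.ball (0 : ℝ) ε, da S (a, b) = da S (0, b) := by
    intro b hb a ha
    refine const_of_zero (g := fun a' => da S (a', b)) (fun a' ha' => ?_) a ha
    have h1 := slice_a (dSa (a', b) (mem_sq ha' hb))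
    rw [hS _ (mem_sq ha' hb)] at h1
    exact h1
  have hSaff : ∀ b ∈ Metric.ball (0 : ℝ) ε, ∀ a ∈ Metric.ball (0 : ℝ) ε,
      S (a, b) = S (0, b) + da S (0, b) * a := by
    intro b hb a ha
    have h2 := const_of_zero (g := fun a' => S (a', b) - da S (0, b) * a') (fun a' ha' => by
      have h1 := (slice_a (dS (a', b) (mem_sq ha' hb))).sub
        ((hasDerivAt_id a').const_mul (da S (0, b)))
      rw [hSa b hb a' ha'] at h1
      exact h1.congr_deriv (by simp)) a ha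
    simp only [mul_zero, sub_zero] at h2
    linarith
  -- the derivative with respect to `b`
  have hSb : ∀ a ∈ Metric.ball (0 : ℝ) ε, db S (a, 0) = db S (0, 0) + db (da S) (0, 0) * a := by
    intro a ha
    have h1 := slice_b (dS (a, 0) (mem_sq ha h0))
    have h2 := (slice_b (dS (0, 0) (mem_sq h0 h0))).add
      ((slice_b (dSa (0, 0) (mem_sq h0 h0))).mul_const a)
    refine h1.unique (h2.congr_of_eventuallyEq ?_)
    filter_upwards [Metric.ball_mem_nhds (0 : ℝ) hε] with b hb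
    exact hSaff b hb a ha
  refine ⟨S (0, 0), da S (0, 0), X (0, 0) * Y (0, 0),
    S (0, 0) * da S (0, 0) - db S (0, 0), (da S (0, 0) ^ 2 - db (da S) (0, 0)) / 2,
    fun a ha => ⟨hSaff 0 h0 a ha, ?_⟩⟩
  have key := const_of_zero (g := fun a' => X (a', 0) * Y (a', 0) -
      ((S (0, 0) * da S (0, 0) - db S (0, 0)) * a' +
        (da S (0, 0) ^ 2 - db (da S) (0, 0)) / 2 * a' ^ 2)) (fun a' ha' => by
    have hw := mem_sq ha' h0
    have h1 := (slice_a (dX _ hw)).mul (slice_a (dY _ hw))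
    have h2 := ((hasDerivAt_id a').const_mul (S (0, 0) * da S (0, 0) - db S (0, 0))).add
      (((hasDerivAt_id a').pow 2).const_mul ((da S (0, 0) ^ 2 - db (da S) (0, 0)) / 2))
    have h3 := h1.sub h2
    have e1 : da S (a', 0) = da X (a', 0) + da Y (a', 0) := by
      unfold da
      rw [hSdef, fderiv_fun_add (dX _ hw) (dY _ hw)]
      rfl
    have e2 : db S (a', 0) = db X (a', 0) + db Y (a', 0) := by
      unfold db
      rw [hSdef, fderiv_fun_add (dX _ hw) (dY _ hw)]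
      rfl
    have e3 := hSb a' ha'
    have e4 := hSa 0 h0 a' ha'
    have e5 := hSaff 0 h0 a' ha'
    have e6 := hXb _ hw
    have e7 := hYb _ hw
    have e8 : S (a', 0) = X (a', 0) + Y (a', 0) := rfl
    refine h3.congr_deriv ?_
    simp only [id, Nat.cast_ofNat, mul_one]
    rw [e2, e6, e7] at e3
    rw [e1] at e4
    rw [e8] at e5
    norm_num
    linear_combination (-1 : ℝ) * e3 + (X (a', 0) + Y (a', 0)) * e4 + da S (0, 0) * e5) a ha
  have key' : X (a, 0) * Y (a, 0) - ((S (0, 0) * da S (0, 0) - db S (0, 0)) * a +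
      (da S (0, 0) ^ 2 - db (da S) (0, 0)) / 2 * a ^ 2) = X (0, 0) * Y (0, 0) - ((S (0, 0) *
      da S (0, 0) - db S (0, 0)) * 0 + (da S (0, 0) ^ 2 - db (da S) (0, 0)) / 2 * 0 ^ 2) := key
  linarith [key']

/-- solutions of the same linear equation of first order are proportional -/
lemma ode {γ D D₂ : ℝ → ℝ} {ε : ℝ} (hD : ∀ a ∈ Metric.ball (0 : ℝ) ε, HasDerivAt D (γ a * D a) a)
    (hD₂ : ∀ a ∈ Metric.ball (0 : ℝ) ε, HasDerivAt D₂ (γ a * D₂ a) a)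
    (hne : ∀ a ∈ Metric.ball (0 : ℝ) ε, D₂ a ≠ 0) :
    ∀ a ∈ Metric.ball (0 : ℝ) ε, D a = D 0 / D₂ 0 * D₂ a := by
  intro a ha
  have h1 := const_of_zero (g := fun a' => D a' / D₂ a') (fun a' ha' => by
    have := (hD a' ha').div (hD₂ a' ha') (hne a' ha')
    refine this.congr_deriv ?_
    have h2 := hne a' ha'
    field_simp
    ring) a ha
  have h1' : D a / D₂ a = D 0 / D₂ 0 := h1
  rw [← h1', div_mul_cancel₀ _ (hne a ha)]

/-- the equation for `P_a` -/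
lemma Pa_eq {X Y φ ψ : ℝ × ℝ → ℝ} {w : ℝ × ℝ} (dX : DifferentiableAt ℝ X w)
    (dY : DifferentiableAt ℝ Y w) (dφ : DifferentiableAt ℝ φ w) (dψ : DifferentiableAt ℝ ψ w)
    (hXb : db X w = X w * da X w) (hYb : db Y w = Y w * da Y w)
    (hrel : ∀ᶠ w' in 𝓝 w, X w' + Y w' = φ w' * (X w' * Y w') + ψ w') :
    (X w * da Y w + Y w * da X w) * (1 - φ w * ψ w) =
      (ψ w * da φ w - db φ w) * (X w * Y w) + (ψ w * da ψ w - db ψ w) := by
  have h1 : HasFDerivAt (fun w' => X w' + Y w') (fderiv ℝ X w + fderiv ℝ Y w) w :=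
    dX.hasFDerivAt.add dY.hasFDerivAt
  have h2 := (dφ.hasFDerivAt.mul (dX.hasFDerivAt.mul dY.hasFDerivAt)).add dψ.hasFDerivAt
  have h3 := h1.unique (h2.congr_of_eventuallyEq hrel)
  have ha := congrArg (fun L => L ((1 : ℝ), (0 : ℝ))) h3
  have hb := congrArg (fun L => L ((0 : ℝ), (1 : ℝ))) h3
  have h0 := hrel.self_of_nhds
  simp only [add_apply, smul_apply, smul_eq_mul] at ha hb
  change da X w + da Y w = φ w * (X w * da Y w + Y w * da X w) + X w * Y w * da φ w + da ψ w at ha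
  change db X w + db Y w = φ w * (X w * db Y w + Y w * db X w) + X w * Y w * db φ w + db ψ w at hb
  rw [hXb, hYb] at hb
  linear_combination ψ w * ha - hb + (da X w + da Y w) * h0

lemma slice_fderiv {f : (ℝ × ℝ) × ℝ → ℝ} {w : ℝ × ℝ} {c : ℝ} (h : DifferentiableAt ℝ f (w, c))
    (v : ℝ × ℝ) : fderiv ℝ (fun w' => f (w', c)) w v = fderiv ℝ f (w, c) (v, 0) := by
  have h1 : HasFDerivAt (fun w' : ℝ × ℝ => (w', c)) (ContinuousLinearMap.inl ℝ (ℝ × ℝ) ℝ) w :=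
    hasFDerivAt_prodMk_left w c
  have h2 := h.hasFDerivAt.comp w h1
  have h3 : fderiv ℝ (fun w' => f (w', c)) w = (fderiv ℝ f (w, c)).comp
      (ContinuousLinearMap.inl ℝ (ℝ × ℝ) ℝ) := h2.fderiv
  rw [h3]
  simp

lemma slice_c {f : (ℝ × ℝ) × ℝ → ℝ} {w : ℝ × ℝ} {c : ℝ} (h : DifferentiableAt ℝ f (w, c)) :
    HasDerivAt (fun c' => f (w, c')) (fderiv ℝ f (w, c) ((0, 0), 1)) c := by
  have h1 : HasDerivAt (fun c' : ℝ => (w, c')) (((0, 0) : ℝ × ℝ), (1 : ℝ)) c :=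
    (hasDerivAt_const c w).prodMk (hasDerivAt_id c)
  exact h.hasFDerivAt.comp_hasDerivAt c h1

/-- injectivity of `P` in `c` -/
lemma inj_c {f : (ℝ × ℝ) × ℝ → ℝ} {w : ℝ × ℝ} {c₁ ε : ℝ}
    (hd : ∀ c ∈ Metric.ball c₁ ε, DifferentiableAt ℝ f (w, c))
    (hn : ∀ c ∈ Metric.ball c₁ ε, fderiv ℝ f (w, c) ((0, 0), 1) ≠ 0) {c c' : ℝ}
    (hc : c ∈ Metric.ball c₁ ε) (hc' : c' ∈ Metric.ball c₁ ε) (hne : c < c') :
    f (w, c) ≠ f (w, c') := by
  intro he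
  have hsub : Set.Icc c c' ⊆ Metric.ball c₁ ε := (convex_ball c₁ ε).ordConnected.out hc hc'
  obtain ⟨d, hd1, hd2⟩ := exists_deriv_eq_zero (f := fun c' => f (w, c')) hne
    (fun t ht => ((slice_c (hd t (hsub ht))).continuousAt).continuousWithinAt) he
  have hdm := hsub (Set.Ioo_subset_Icc_self hd1)
  rw [(slice_c (hd d hdm)).deriv] at hd2
  exact hn d hdm hd2

theorem t_CON1 : S_CON1 := by
  intro hT F q o u w₀ x₁ x₂ φ ψ hX
  have ev : ∀ᶠ z in 𝓝 (((0, 0), F q) : (ℝ × ℝ) × ℝ),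
      ContDiffAt ℝ 20 x₁ z ∧ ContDiffAt ℝ 20 x₂ z ∧
      fderiv ℝ x₁ z ((0, 1), 0) = x₁ z * fderiv ℝ x₁ z ((1, 0), 0) ∧
      fderiv ℝ x₂ z ((0, 1), 0) = x₂ z * fderiv ℝ x₂ z ((1, 0), 0) ∧
      x₁ z + x₂ z = φ z.1 * (x₁ z * x₂ z) + ψ z.1 ∧ x₁ z ≠ x₂ z ∧
      fderiv ℝ (fun z => x₁ z * x₂ z) z ((0, 0), 1) ≠ 0 ∧
      ContDiffAt ℝ 20 φ z.1 ∧ ContDiffAt ℝ 20 ψ z.1 ∧ φ z.1 * ψ z.1 < 1 := by
    have e1 := hX.s₁.eventually (by simp)
    have e2 := hX.s₂.eventually (by simp)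
    have e3 := (hX.s₁.continuousAt.ne_iff_eventually_ne hX.s₂.continuousAt).1 hX.ne
    have c1 : ContDiffAt ℝ 19 (fderiv ℝ (fun z => x₁ z * x₂ z)) ((0, 0), F q) :=
      (hX.s₁.mul hX.s₂).fderiv_right (by norm_num)
    have c2 : ContinuousAt (fun z => fderiv ℝ (fun z => x₁ z * x₂ z) z ((0, 0), 1))
        (((0, 0), F q) : (ℝ × ℝ) × ℝ) := (c1.clm_apply contDiffAt_const).continuousAt
    have e4 := c2.eventually_ne hX.Pc
    have ct : Tendsto (fun z : (ℝ × ℝ) × ℝ => z.1) (𝓝 ((0, 0), F q)) (𝓝 (0, 0)) :=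
      continuous_fst.tendsto _
    have e5 := ct.eventually (hX.sφ.eventually (by simp))
    have e6 := ct.eventually (hX.sψ.eventually (by simp))
    have e7 := ct.eventually ((hX.sφ.continuousAt.mul hX.sψ.continuousAt).eventually_lt
      continuousAt_const (show φ (0, 0) * ψ (0, 0) < 1 by rw [hX.ψ0]; norm_num))
    filter_upwards [e1, e2, hX.b₁, hX.b₂, hX.rel, e3, e4, e5, e6, e7] with z a1 a2 a3 a4 a5 a6 a7
      a8 a9 a10
    exact ⟨a1, a2, a3, a4, a5, a6, a7, a8, a9, a10⟩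
  obtain ⟨ε, hε, H⟩ := Metric.eventually_nhds_iff_ball.1 ev
  rw [← ball_prod_same] at H
  have m0 : ((0, 0) : ℝ × ℝ) ∈ Metric.ball ((0, 0) : ℝ × ℝ) ε := Metric.mem_ball_self hε
  have i0 : F q ∈ Metric.ball (F q) ε := Metric.mem_ball_self hε
  have O1 : IsOpen (Metric.ball ((0, 0) : ℝ × ℝ) ε) := Metric.isOpen_ball
  -- slices
  have sl : ∀ {f : (ℝ × ℝ) × ℝ → ℝ} {w : ℝ × ℝ} {c : ℝ}, ContDiffAt ℝ 20 f (w, c) →
      ContDiffAt ℝ 20 (fun w' => f (w', c)) w := by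
    intro f w c h
    exact h.comp w (contDiffAt_id.prodMk contDiffAt_const)
  have hb1 : ∀ w ∈ Metric.ball ((0, 0) : ℝ × ℝ) ε, ∀ c ∈ Metric.ball (F q) ε,
      db (fun w' => x₁ (w', c)) w = x₁ (w, c) * da (fun w' => x₁ (w', c)) w := by
    intro w hw c hc
    obtain ⟨a1, a2, a3, a4, a5, a6, a7, a8, a9, a10⟩ := H (w, c) ⟨hw, hc⟩
    unfold da db
    rw [slice_fderiv (a1.differentiableAt (by norm_num)),
      slice_fderiv (a1.differentiableAt (by norm_num))]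
    exact a3
  have hb2 : ∀ w ∈ Metric.ball ((0, 0) : ℝ × ℝ) ε, ∀ c ∈ Metric.ball (F q) ε,
      db (fun w' => x₂ (w', c)) w = x₂ (w, c) * da (fun w' => x₂ (w', c)) w := by
    intro w hw c hc
    obtain ⟨a1, a2, a3, a4, a5, a6, a7, a8, a9, a10⟩ := H (w, c) ⟨hw, hc⟩
    unfold da db
    rw [slice_fderiv (a2.differentiableAt (by norm_num)),
      slice_fderiv (a2.differentiableAt (by norm_num))]
    exact a4
  have hinj : ∀ w ∈ Metric.ball ((0, 0) : ℝ × ℝ) ε, ∀ c ∈ Metric.ball (F q) ε,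
      ∀ c' ∈ Metric.ball (F q) ε, c < c' →
      x₁ (w, c) * x₂ (w, c) ≠ x₁ (w, c') * x₂ (w, c') := by
    intro w hw c hc c' hc' hlt
    refine inj_c (f := fun z => x₁ z * x₂ z) (fun d hd => ?_) (fun d hd => ?_) hc hc' hlt
    · obtain ⟨a1, a2, a3, a4, a5, a6, a7, a8, a9, a10⟩ := H (w, d) ⟨hw, hd⟩
      exact (a1.mul a2).differentiableAt (by norm_num)
    · obtain ⟨a1, a2, a3, a4, a5, a6, a7, a8, a9, a10⟩ := H (w, d) ⟨hw, hd⟩
      exact a7
  -- the Reiss relation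
  have hSaa : ∀ c ∈ Metric.ball (F q) ε, ∀ w ∈ Metric.ball ((0, 0) : ℝ × ℝ) ε,
      da (da (fun w' => x₁ (w', c) + x₂ (w', c))) w = 0 := by
    intro c hc w hw
    have hcb := Metric.mem_ball.1 hc
    rw [Real.dist_eq, abs_lt] at hcb
    set c' : ℝ := (c + (F q + ε)) / 2 with hc'
    set c'' : ℝ := (c' + (F q + ε)) / 2 with hc''
    have l1 : c < c' := by rw [hc']; linarith
    have l2 : c' < c'' := by rw [hc'', hc']; linarith
    have l3 : c'' < F q + ε := by rw [hc'', hc']; linarith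
    have mc' : c' ∈ Metric.ball (F q) ε := by
      rw [Metric.mem_ball, Real.dist_eq, abs_lt]; constructor <;> linarith
    have mc'' : c'' ∈ Metric.ball (F q) ε := by
      rw [Metric.mem_ball, Real.dist_eq, abs_lt]; constructor <;> linarith
    let cc : Fin 3 → ℝ := ![c, c', c'']
    have mcc : ∀ j, cc j ∈ Metric.ball (F q) ε := by
      intro j; fin_cases j
      · exact hc
      · exact mc'
      · exact mc''
    have hmono : StrictMono cc := by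
      intro i j hij
      fin_cases i <;> fin_cases j <;> first | exact absurd hij (by decide) | skip
      · exact l1
      · exact l1.trans l2
      · exact l2
    have hD : Dat (fun j w' => x₁ (w', cc j)) (fun j w' => x₂ (w', cc j)) φ ψ w := by
      refine ⟨fun j => ?_, fun j => ?_, ?_, ?_, fun j => ?_, fun j => ?_, fun j => ?_, fun j => ?_,
        fun i j hij => ?_, ?_⟩
      · exact sl (H (w, cc j) ⟨hw, mcc j⟩).1
      · exact sl (H (w, cc j) ⟨hw, mcc j⟩).2.1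
      · exact (H (w, c) ⟨hw, hc⟩).2.2.2.2.2.2.2.1
      · exact (H (w, c) ⟨hw, hc⟩).2.2.2.2.2.2.2.2.1
      · filter_upwards [O1.mem_nhds hw] with w' hw'
        exact hb1 w' hw' (cc j) (mcc j)
      · filter_upwards [O1.mem_nhds hw] with w' hw'
        exact hb2 w' hw' (cc j) (mcc j)
      · filter_upwards [O1.mem_nhds hw] with w' hw'
        exact (H (w', cc j) ⟨hw', mcc j⟩).2.2.2.2.1
      · exact (H (w, cc j) ⟨hw, mcc j⟩).2.2.2.2.2.1
      · rcases lt_or_gt_of_ne hij with h | h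
        · exact hinj w hw _ (mcc i) _ (mcc j) (hmono h)
        · exact (hinj w hw _ (mcc j) _ (mcc i) (hmono h)).symm
      · exact (H (w, c) ⟨hw, hc⟩).2.2.2.2.2.2.2.2.2
    exact hT _ _ φ ψ w hD 0
  -- polynomials for each `c`
  have hpoly : ∀ c ∈ Metric.ball (F q) ε, ∃ α β p₀ p₁ p₂ : ℝ, ∀ a ∈ Metric.ball (0 : ℝ) ε,
      x₁ ((a, 0), c) + x₂ ((a, 0), c) = α + β * a ∧
      x₁ ((a, 0), c) * x₂ ((a, 0), c) = p₀ + p₁ * a + p₂ * a ^ 2 := by
    intro c hc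
    exact quad_slice (X := fun w => x₁ (w, c)) (Y := fun w => x₂ (w, c)) hε
      (fun w hw => sl (H (w, c) ⟨hw, hc⟩).1) (fun w hw => sl (H (w, c) ⟨hw, hc⟩).2.1)
      (fun w hw => hb1 w hw c hc) (fun w hw => hb2 w hw c hc) (hSaa c hc)
  -- the differential equation
  let γ : ℝ → ℝ := fun a => (ψ (a, 0) * da φ (a, 0) - db φ (a, 0)) / (1 - φ (a, 0) * ψ (a, 0))
  let δ : ℝ → ℝ := fun a => (ψ (a, 0) * da ψ (a, 0) - db ψ (a, 0)) / (1 - φ (a, 0) * ψ (a, 0))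
  have z0 : (0 : ℝ) ∈ Metric.ball (0 : ℝ) ε := Metric.mem_ball_self hε
  have hode : ∀ c ∈ Metric.ball (F q) ε, ∀ a ∈ Metric.ball (0 : ℝ) ε,
      HasDerivAt (fun a' => x₁ ((a', 0), c) * x₂ ((a', 0), c))
        (γ a * (x₁ ((a, 0), c) * x₂ ((a, 0), c)) + δ a) a := by
    intro c hc a ha
    have hw := mem_sq ha z0
    obtain ⟨a1, a2, a3, a4, a5, a6, a7, a8, a9, a10⟩ := H ((a, 0), c) ⟨hw, hc⟩
    have dX := (sl a1).differentiableAt (show (20 : WithTop ℕ∞) ≠ 0 by norm_num)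
    have dY := (sl a2).differentiableAt (show (20 : WithTop ℕ∞) ≠ 0 by norm_num)
    have h1 := Pa_eq dX dY (a8.differentiableAt (by norm_num)) (a9.differentiableAt (by norm_num))
      (hb1 _ hw c hc) (hb2 _ hw c hc) (by
        filter_upwards [O1.mem_nhds hw] with w' hw'
        exact (H (w', c) ⟨hw', hc⟩).2.2.2.2.1)
    have h2 := (slice_a dX).mul (slice_a dY)
    refine h2.congr_deriv ?_
    have h3 : (1 : ℝ) - φ (a, 0) * ψ (a, 0) ≠ 0 := by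
      have : φ (a, 0) * ψ (a, 0) < 1 := a10
      exact ne_of_gt (by linarith)
    simp only [γ, δ]
    rw [div_mul_eq_mul_div, ← add_div, eq_div_iff h3]
    linear_combination h1
  -- a second value
  set c₂ : ℝ := F q + ε / 2 with hc₂
  have mc₂ : c₂ ∈ Metric.ball (F q) ε := by
    rw [Metric.mem_ball, Real.dist_eq, abs_lt]; constructor <;> linarith
  obtain ⟨α₁, β₁, p₁₀, p₁₁, p₁₂, h₁⟩ := hpoly (F q) i0
  obtain ⟨α₂, β₂, p₂₀, p₂₁, p₂₂, h₂⟩ := hpoly c₂ mc₂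
  have hD2 : ∀ a ∈ Metric.ball (0 : ℝ) ε,
      x₁ ((a, 0), c₂) * x₂ ((a, 0), c₂) - x₁ ((a, 0), F q) * x₂ ((a, 0), F q) ≠ 0 := by
    intro a ha h
    exact hinj _ (mem_sq ha z0) _ i0 _ mc₂ (by rw [hc₂]; linarith) (by linarith)
  have hdiff : ∀ c ∈ Metric.ball (F q) ε, ∀ a ∈ Metric.ball (0 : ℝ) ε,
      HasDerivAt (fun a' => x₁ ((a', 0), c) * x₂ ((a', 0), c) -
        x₁ ((a', 0), F q) * x₂ ((a', 0), F q))
        (γ a * (x₁ ((a, 0), c) * x₂ ((a, 0), c) - x₁ ((a, 0), F q) * x₂ ((a, 0), F q))) a := by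
    intro c hc a ha
    refine ((hode c hc a ha).sub (hode (F q) i0 a ha)).congr_deriv ?_
    ring
  set N : ℝ := p₂₀ - p₁₀ with hN
  have hN0 : N ≠ 0 := by
    have h3 := hD2 0 z0
    rw [(h₂ 0 z0).2, (h₁ 0 z0).2] at h3
    intro h
    apply h3
    simp only [mul_zero, add_zero, ne_eq, OfNat.ofNat_ne_zero, not_false_eq_true, zero_pow]
    exact h
  refine ⟨α₁, β₁, (α₂ - α₁) / N, (β₂ - β₁) / N, p₁₀, p₁₁, p₁₂, (p₂₁ - p₁₁) / N, (p₂₂ - p₁₂) / N,
    fun c => x₁ ((0, 0), c) * x₂ ((0, 0), c) - x₁ ((0, 0), F q) * x₂ ((0, 0), F q), ?_⟩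
  have hmem : Metric.ball (0 : ℝ) ε ×ˢ Metric.ball (F q) ε ∈ 𝓝 ((0, F q) : ℝ × ℝ) :=
    prod_mem_nhds (Metric.ball_mem_nhds _ hε) (Metric.ball_mem_nhds _ hε)
  filter_upwards [hmem] with z hz
  obtain ⟨a, c⟩ := z
  obtain ⟨ha, hc⟩ := hz
  simp only at ha hc ⊢
  have hP := ode (hdiff c hc) (hdiff c₂ mc₂) hD2 a ha
  have e1 := h₁ a ha
  have e2 := h₂ a ha
  have f1 := h₁ 0 z0
  have f2 := h₂ 0 z0
  simp only [mul_zero, add_zero, ne_eq, OfNat.ofNat_ne_zero, not_false_eq_true, zero_pow] at f1 f2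
  have r := (H ((a, 0), c) ⟨mem_sq ha z0, hc⟩).2.2.2.2.1
  have r1 := (H ((a, 0), F q) ⟨mem_sq ha z0, i0⟩).2.2.2.2.1
  have r2 := (H ((a, 0), c₂) ⟨mem_sq ha z0, mc₂⟩).2.2.2.2.1
  simp only at r r1 r2
  set τ : ℝ := x₁ ((0, 0), c) * x₂ ((0, 0), c) - x₁ ((0, 0), F q) * x₂ ((0, 0), F q) with hτ
  have hden : x₁ ((0, 0), c₂) * x₂ ((0, 0), c₂) - x₁ ((0, 0), F q) * x₂ ((0, 0), F q) = N := by
    rw [f1.2, f2.2]
  rw [hden] at hP
  have hP' : x₁ ((a, 0), c) * x₂ ((a, 0), c) - (p₁₀ + p₁₁ * a + p₁₂ * a ^ 2) =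
      τ / N * ((p₂₀ + p₂₁ * a + p₂₂ * a ^ 2) - (p₁₀ + p₁₁ * a + p₁₂ * a ^ 2)) := by
    rw [← e1.2, ← e2.2]
    exact hP
  constructor
  · have h5 : x₁ ((a, 0), c) + x₂ ((a, 0), c) - (α₁ + β₁ * a) =
        τ / N * ((α₂ + β₂ * a) - (α₁ + β₁ * a)) := by
      rw [← e1.1, ← e2.1]
      linear_combination r - r1 + τ / N * (r1 - r2) + φ (a, 0) * hP
    have h6 : x₁ ((a, 0), c) + x₂ ((a, 0), c) = (α₁ + β₁ * a) +
        τ / N * ((α₂ + β₂ * a) - (α₁ + β₁ * a)) := by linarith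
    rw [h6]
    field_simp
    ring
  · have h6 : x₁ ((a, 0), c) * x₂ ((a, 0), c) = (p₁₀ + p₁₁ * a + p₁₂ * a ^ 2) +
        τ / N * ((p₂₀ + p₂₁ * a + p₂₂ * a ^ 2) - (p₁₀ + p₁₁ * a + p₁₂ * a ^ 2)) := by linarith
    rw [h6]
    have h7 : p₂₀ = N + p₁₀ := by rw [hN]; ring
    rw [h7]
    field_simp
    ring

end

end Pool.Agent.U356.PD
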